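import Pool.Agent.V5helper64.ED.All

/-!
# The approximations of a real number which violate the truncated inequality

Let `K` be a number field of degree `d` with an embedding `σ` in `ℝ`, `T` a finite set of primes of
`K`, `α_1, …, α_q` (`q ≥ 2`) distinct points of the projective line over `K`, `0 ≤ κ < 2` and `c`
real. The truncated inequality with the coefficient `q - κ`, `κ < 2`, is false for many points `x`
of `K`. We determine how well real numbers `ξ` can be approximated by these points:

* for almost every `ξ` there are infinitely many of them with `|ξ - σ x| ≤ H(x) ^ (-τ)` if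
`τ < d (2 - κ)`, and only finitely many if `τ > d (2 - κ)`, in the second part for `κ ≤ 6/7`, or
`q = 3` and `κ ≤ 1`, or `q = 2`. One null set of numbers `ξ` can be excluded which is good for all
number fields `K ⊆ ℝ`, all `T`, all finite subsets `α_1, …, α_q`, all `κ`, `c` and `τ`.
* for every `τ > 0` the set of the `ξ` with infinitely many such `x` has Hausdorff dimension at
least `min 1 (d (2 - κ) / τ)`, with equality for `κ ≤ 6/7`, or `q = 3` and `κ ≤ 1`, or `q = 2`.
-/

set_option autoImplicit false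

namespace Pool.Agent.Results.MP_4d5ce1_nt.ExactDimension

open NumberField IsDedekindDomain MeasureTheory

/-- the absolute logarithmic height of the point `[x : 1]` -/
noncomputable def height {K : Type} [Field K] [NumberField K] (x : K) : ℝ :=
  (∑ w : InfinitePlace K, (w.mult : ℝ) * Real.log (max (w x) (w 1)) +
    ∑ᶠ v : HeightOneSpectrum (RingOfIntegers K),
      Real.log (max (FinitePlace.mk v x) (FinitePlace.mk v 1))) /
    (Module.finrank ℚ K : ℝ)

/-- the truncated counting function of the point `[x : 1]` with respect to the points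
`[(α l).1 : (α l).2]`: the sum over the primes outside `T` and over `l` of the truncated local
heights -/
noncomputable def counting {K : Type} [Field K] [NumberField K]
    (T : Set (HeightOneSpectrum (RingOfIntegers K))) {q : ℕ} (α : Fin q → K × K) (x : K) : ℝ :=
  ∑ᶠ (v : HeightOneSpectrum (RingOfIntegers K)) (_ : v ∉ T),
    ∑ l : Fin q,
      min
        (Real.log
            (max (FinitePlace.mk v x) (FinitePlace.mk v 1) *
              max (FinitePlace.mk v (α l).1) (FinitePlace.mk v (α l).2) /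
              FinitePlace.mk v (x * (α l).2 - 1 * (α l).1)) /
          (Module.finrank ℚ K : ℝ))
        (Real.log (Ideal.absNorm v.asIdeal : ℝ) / (Module.finrank ℚ K : ℝ))

/-- the degree of the number field `K`, as a real number -/
noncomputable def degree (K : Type) [Field K] [NumberField K] : ℝ := (Module.finrank ℚ K : ℝ)

/-- the set of the `x ∈ K`, different from the `α_l`, with `|ξ - σ x| ≤ H(x) ^ (-τ)` and
`∑_{v ∉ T} ∑_l λ^(1)_v(α_l, x) < (q - κ) h(x) + c` -/
def approximations {K : Type} [Field K] [NumberField K] (σ : K →+* ℝ)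
    (T : Set (HeightOneSpectrum (RingOfIntegers K))) {q : ℕ} (α : Fin q → K × K)
    (κ c τ ξ : ℝ) : Set K :=
  {x : K | (∀ l, x * (α l).2 - 1 * (α l).1 ≠ 0) ∧
    counting T α x < ((q : ℝ) - κ) * height x + c ∧ |ξ - σ x| ≤ Real.exp (-τ * height x)}

theorem infinite_iff {K : Type} [Field K] [NumberField K] (σ : K →+* ℝ)
    (T : Set (HeightOneSpectrum (RingOfIntegers K))) {q : ℕ} (α : Fin q → K × K)
    (κ c τ ξ : ℝ) :
    (approximations σ T α κ c τ ξ).Infinite ↔ ξ ∈ Pool.Agent.R479.DK.WEK σ T α κ c τ := by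
  have h : approximations σ T α κ c τ ξ = {x : K | x ∈ Pool.Agent.R479.DB.ex T α κ c ∧
      dist ξ (σ x) ≤ Real.exp (Pool.Agent.W221.Exc.height x) ^ (-τ)} := by
    ext x
    have e : Real.exp (Pool.Agent.W221.Exc.height x) ^ (-τ) = Real.exp (-τ * height x) := by
      rw [← Real.exp_mul, mul_comm]
      rfl
    constructor
    · rintro ⟨h1, h2, h3⟩
      refine ⟨⟨h1, h2⟩, ?_⟩
      rw [e, Real.dist_eq]
      exact h3
    · rintro ⟨⟨h1, h2⟩, h3⟩
      rw [e, Real.dist_eq] at h3
      exact ⟨h1, h2, h3⟩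
  rw [h]
  rfl

theorem primitive (K : IntermediateField ℚ ℝ)
    (h : @Module.Finite ℚ K _ _ (K.algebra').toModule) :
    ∃ a : K, IntermediateField.adjoin ℚ {(a : ℝ)} = K ∧ IsAlgebraic ℚ (a : ℝ) := by
  obtain ⟨a, ha⟩ := @Field.exists_primitive_element ℚ K _ _ K.algebra' h
    (by
      have := @Algebra.IsAlgebraic.of_finite ℚ K _ _ _ K.algebra' h
      exact @Algebra.IsAlgebraic.isSeparable_of_perfectField ℚ K _ _ K.algebra' this _)
  refine ⟨a, ?_, ?_⟩
  · have h2 := congrArg IntermediateField.lift ha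
    rw [IntermediateField.lift_adjoin_simple, IntermediateField.lift_top] at h2
    exact h2
  · have h3 : @IsAlgebraic ℚ K _ _ K.algebra' a := by
      have := @Algebra.IsAlgebraic.of_finite ℚ K _ _ _ K.algebra' h
      exact Algebra.IsAlgebraic.isAlgebraic a
    have := @IsAlgebraic.algebraMap ℚ K ℝ _ _ _ _ K.algebra' _ _ a h3
    exact this

theorem finite_of (K : IntermediateField ℚ ℝ) (hK : NumberField K) :
    @Module.Finite ℚ K _ _ (K.algebra').toModule := by
  have h := NumberField.to_finiteDimensional (K := K)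
  convert h

/-- the number fields contained in `ℝ` form a countable set -/
theorem countable_fields : {K : IntermediateField ℚ ℝ | NumberField K}.Countable := by
  have hA : Countable {x : ℝ | IsAlgebraic ℚ x} := (Algebraic.countable ℚ ℝ).to_subtype
  refine Set.Countable.mono ?_ (Set.countable_range
    (fun a : {x : ℝ | IsAlgebraic ℚ x} => IntermediateField.adjoin ℚ {(a : ℝ)}))
  intro K hK
  obtain ⟨a, h1, h2⟩ := primitive K (finite_of K hK)
  exact ⟨⟨(a : ℝ), h2⟩, h1⟩

/-- **The metric theory of the exceptional approximations.**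

* For almost every real number `ξ` the following holds for all number fields `K ⊆ ℝ`, all finite
sets `T` of primes of `K`, all distinct points `α_1, …, α_q` (`q ≥ 2`) of the projective line over
`K` and all real `κ`, `c`, `τ` with `0 ≤ κ < 2`; `d` is the degree of `K`. If `τ < d (2 - κ)`, then
there are infinitely many `x ∈ K`, different from the `α_l`, with `|ξ - x| ≤ H(x) ^ (-τ)` and
`∑_{v ∉ T} ∑_l λ^(1)_v(α_l, x) < (q - κ) h(x) + c`. If `τ > d (2 - κ)`, and `κ ≤ 6/7`, or `q = 3` and
`κ ≤ 1`, or `q = 2`, then there are only finitely many.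
* Let `K` be a number field of degree `d` with an embedding `σ` in `ℝ`, `T` a finite set of primes,
`α_1, …, α_q` (`q ≥ 2`) distinct points of the projective line over `K`, `0 ≤ κ < 2`, `c` real and
`τ > 0`. The set of the real numbers `ξ` with infinitely many `x ∈ K`, different from the `α_l`, with
`|ξ - σ x| ≤ H(x) ^ (-τ)` and `∑_{v ∉ T} ∑_l λ^(1)_v(α_l, x) < (q - κ) h(x) + c` has Hausdorff
dimension at least `min 1 (d (2 - κ) / τ)`, with equality if `κ ≤ 6/7`, or `q = 3` and `κ ≤ 1`, or
`q = 2`. -/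
theorem result :
    (∀ᵐ ξ : ℝ, ∀ (K : IntermediateField ℚ ℝ) [NumberField K]
      (T : Set (HeightOneSpectrum (RingOfIntegers K))), T.Finite →
      ∀ q : ℕ, 2 ≤ q → ∀ α : Fin q → K × K, (∀ i, α i ≠ 0) →
      (∀ i j, i ≠ j → (α i).1 * (α j).2 - (α i).2 * (α j).1 ≠ 0) →
      ∀ κ c τ : ℝ, 0 ≤ κ → κ < 2 →
        (τ < degree K * (2 - κ) → (approximations (algebraMap K ℝ) T α κ c τ ξ).Infinite) ∧
        (κ ≤ 6 / 7 ∨ (q = 3 ∧ κ ≤ 1) ∨ q = 2 → degree K * (2 - κ) < τ →
          (approximations (algebraMap K ℝ) T α κ c τ ξ).Finite)) ∧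
    (∀ (K : Type) [Field K] [NumberField K] (σ : K →+* ℝ)
      (T : Set (HeightOneSpectrum (RingOfIntegers K))), T.Finite →
      ∀ q : ℕ, 2 ≤ q → ∀ α : Fin q → K × K, (∀ i, α i ≠ 0) →
      (∀ i j, i ≠ j → (α i).1 * (α j).2 - (α i).2 * (α j).1 ≠ 0) →
      ∀ κ c τ : ℝ, 0 ≤ κ → κ < 2 → 0 < τ →
        ENNReal.ofReal (min 1 (degree K * (2 - κ) / τ)) ≤
          dimH {ξ : ℝ | (approximations σ T α κ c τ ξ).Infinite} ∧
        (κ ≤ 6 / 7 ∨ (q = 3 ∧ κ ≤ 1) ∨ q = 2 →
          dimH {ξ : ℝ | (approximations σ T α κ c τ ξ).Infinite} =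
            ENNReal.ofReal (min 1 (degree K * (2 - κ) / τ)))) := by
  constructor
  · have h1 : ∀ᵐ ξ : ℝ, ∀ K ∈ {K : IntermediateField ℚ ℝ | NumberField K}, ∀ [NumberField K]
        (T : Set (HeightOneSpectrum (RingOfIntegers K))), T.Finite →
        ∀ q : ℕ, 2 ≤ q → ∀ α : Fin q → K × K, (∀ i, α i ≠ 0) →
        (∀ i j, i ≠ j → (α i).1 * (α j).2 - (α i).2 * (α j).1 ≠ 0) →
        ∀ κ c τ : ℝ, 0 ≤ κ → κ < 2 →
          (τ < degree K * (2 - κ) →
            ξ ∈ Pool.Agent.R479.DK.WEK (algebraMap K ℝ) T α κ c τ) ∧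
          (Pool.Agent.V5helper64.ED.Cond q κ → degree K * (2 - κ) < τ →
            ξ ∉ Pool.Agent.R479.DK.WEK (algebraMap K ℝ) T α κ c τ) := by
      rw [ae_ball_iff countable_fields]
      intro K hK
      have hK' : NumberField K := hK
      filter_upwards [Pool.Agent.V5helper64.ED.ae_all_subsets (algebraMap K ℝ)] with ξ hξ _
      exact hξ
    filter_upwards [h1] with ξ hξ K hK T hT q hq α hα0 hα κ c τ hκ hκ2
    obtain ⟨h2, h3⟩ := hξ K hK T hT q hq α hα0 hα κ c τ hκ hκ2
    refine ⟨fun h => (infinite_iff _ T α κ c τ ξ).2 (h2 h), fun hc h => ?_⟩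
    rw [← Set.not_infinite, infinite_iff]
    exact h3 hc h
  · intro K _ _ σ T hT q hq α hα0 hα κ c τ hκ hκ2 hτ
    have h0 : {ξ : ℝ | (approximations σ T α κ c τ ξ).Infinite} =
        Pool.Agent.R479.DK.WEK σ T α κ c τ := by
      ext ξ
      exact infinite_iff σ T α κ c τ ξ
    rw [h0]
    have h1 := Pool.Agent.R479.DK.WEK_ge σ T hq α hα0 hα κ c τ hκ hκ2 hτ
    refine ⟨h1, fun hc => le_antisymm ?_ h1⟩
    exact Pool.Agent.R479.DK.WEK_le σ T hT hq α hα0 hα κ c τ (2 - κ) hκ (by linarith) hτ
      (Pool.Agent.V5helper64.ED.Cond.sel hq hc)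

end Pool.Agent.Results.MP_4d5ce1_nt.ExactDimension
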