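import Pool.Agent.V5helper62.TS.Up
import Pool.Agent.Y557.NF.CurveHt

/-!
# Vojta's inequality on the images of rational functions: one exceptional set of parameters

`K` is a number field. Let `f` be a rational function of degree `D ≥ 1` over a number field `k`
containing `K`, and `α_1, …, α_q` distinct points of the projective line over `k`. The values
`f(t)`, `t ∈ K`, form a thin set (if `D ≥ 2`), a set of density zero in the projective line, about
which the known results on almost all points of the line say nothing. Let `n` be the number of the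
points `β` (over the algebraic closure, `β = ∞` included) with `f(β) ∈ {α_1, …, α_q}`; then
`n ≥ (q - 2) D + 2`.

For every `ε > 0` there is one subset `E` of `K`, a power-saving proportion of all elements, such that
for all `k`, all finite sets `S` of primes of `k`, all `q` and `α_1, …, α_q` and all `f` for which the
points `β` have degree at most five over `K` (for instance, if `D [k : K] ≤ 5`),

  `(n / D - ε) h(f(t)) - C ≤ ∑_{v ∉ S} ∑_l λ⁽¹⁾_v(α_l, f(t)) ≤ (n / D) h(f(t)) + C`

for all `t ∈ K` outside `E` with `f(t) ≠ α_l`; the second inequality holds for all `t` and all `f`.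
Here `n / D ≥ q - 2 + 2 / D`, so the conjecture, with a larger coefficient than `q - 2 - ε`, holds at
almost all points of all these thin sets. If `f` is ramified only over the `α_l` then `n / D` is
exactly `q - 2 + 2 / D`.
-/

set_option autoImplicit false

namespace Pool.Agent.Results.MP_4d5ce1_nt.RationalFunctionImages

open NumberField IsDedekindDomain Polynomial

/-- the absolute logarithmic height (the height of Mathlib is relative to `K`) -/
noncomputable def height {K : Type} [Field K] [NumberField K] (x : Fin 2 → K) : ℝ :=
  Height.logHeight x / (Module.finrank ℚ K : ℝ)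

/-- the sum over the primes `v ∉ S` of `k` and over `l` of the truncated local heights
`λ⁽¹⁾_v(α_l, x) = min (λ_v(α_l, x), log N(v) / [k : ℚ])` -/
noncomputable def counting {k : Type} [Field k] [NumberField k] (S : Set (HeightOneSpectrum (𝓞 k)))
    {q : ℕ} (α : Fin q → Fin 2 → k) (x : Fin 2 → k) : ℝ :=
  ∑ᶠ (v : HeightOneSpectrum (𝓞 k)) (_ : v ∉ S), ∑ l : Fin q,
    min
      (Real.log
          (max (FinitePlace.mk v (x 0)) (FinitePlace.mk v (x 1)) *
            max (FinitePlace.mk v (α l 0)) (FinitePlace.mk v (α l 1)) /
            FinitePlace.mk v (x 0 * α l 1 - x 1 * α l 0)) /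
        (Module.finrank ℚ k : ℝ))
      (Real.log (Ideal.absNorm v.asIdeal : ℝ) / (Module.finrank ℚ k : ℝ))

/-- homogeneous coordinates of the value `f(t)` of the rational function `f = A / B` -/
noncomputable def value {k : Type} [Field k] (A B : k[X]) (t : k) : Fin 2 → k :=
  ![A.eval t, B.eval t]

/-- the points `β` of the projective line over the algebraic closure with `f(β) = α_l` for some `l`,
where `f = A / B` has degree `D`: the point at infinity, which is `none`, is such a point if
`α_{l,1} A - α_{l,0} B` has degree less than `D` for some `l`, and `some z` is one if `z` is a zero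
of one of these polynomials -/
def preimages {k : Type} [Field k] {q : ℕ} (D : ℕ) (A B : k[X]) (α : Fin q → Fin 2 → k) :
    Set (Option (AlgebraicClosure k)) :=
  {β | (β = none ∧ ∃ l, (C (α l 1) * A - C (α l 0) * B).coeff D = 0) ∨
    ∃ z, β = some z ∧ ∃ l, aeval z (C (α l 1) * A - C (α l 0) * B) = 0}

open Pool.Agent.Y730.QP Pool.Agent.TH876.Loc in
theorem counting_eq {k : Type} [Field k] [NumberField k] (S : Set (HeightOneSpectrum (𝓞 k)))
    {q : ℕ} (α : Fin q → Fin 2 → k) (x : Fin 2 → k) :
    (Module.finrank ℚ k : ℝ) * counting S α x = cnt S α x := by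
  classical
  have hd : (0 : ℝ) < Module.finrank ℚ k := by exact_mod_cast (Module.finrank_pos (R := ℚ) (M := k))
  unfold counting cnt
  rw [mul_finsum]
  refine finsum_congr fun v => ?_
  rw [finsum_eq_if, finsum_eq_if]
  split_ifs with hv
  · rw [mul_zero]
  rw [Finset.mul_sum]
  refine Finset.sum_congr rfl fun l _ => ?_
  rw [mul_min_of_nonneg _ _ hd.le, mul_div_cancel₀ _ hd.ne', mul_div_cancel₀ _ hd.ne']
  have e : x 0 * α l 1 - x 1 * α l 0 = -Pool.Agent.TH876.KR.form (α l) x := by
    unfold Pool.Agent.TH876.KR.form
    ring
  have e2 : FinitePlace.mk v (x 0 * α l 1 - x 1 * α l 0) =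
      FinitePlace.mk v (Pool.Agent.TH876.KR.form (α l) x) := by
    rw [e]
    exact (FinitePlace.mk v).1.map_neg _
  rw [e2, mul_comm (max (FinitePlace.mk v (x 0)) (FinitePlace.mk v (x 1)))]
  rfl

/-- the degree of the preimages -/
theorem degree_le {K k : Type} [Field K] [NumberField K] [Field k] [NumberField k] [Algebra K k]
    {P : k[X]} (hP : P ≠ 0) {D : ℕ} (hD : P.natDegree ≤ D) {β : AlgebraicClosure k}
    (hβ : aeval β P = 0) : (minpoly K β).natDegree ≤ D * Module.finrank K k := by
  have hfd : FiniteDimensional K k := Module.Finite.of_restrictScalars_finite ℚ K k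
  have hint : IsIntegral k β := Algebra.IsIntegral.isIntegral β
  have hintK : IsIntegral K β := isIntegral_trans (R := K) (A := k) β hint
  have h1 : (minpoly k β).natDegree ≤ D :=
    (natDegree_le_of_dvd (minpoly.dvd k β hβ) hP).trans hD
  have hfk : FiniteDimensional k (IntermediateField.adjoin k {β}) :=
    IntermediateField.adjoin.finiteDimensional hint
  have hfK : FiniteDimensional K (IntermediateField.adjoin k {β}) :=
    Module.Finite.trans k _
  have h2 : Module.finrank k (IntermediateField.adjoin k {β}) = (minpoly k β).natDegree :=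
    IntermediateField.adjoin.finrank hint
  let z : IntermediateField.adjoin k {β} := ⟨β, IntermediateField.mem_adjoin_simple_self k β⟩
  have h3 : minpoly K β = minpoly K z :=
    minpoly.algHom_eq ((IntermediateField.val (IntermediateField.adjoin k {β})).restrictScalars K)
      (IntermediateField.val (IntermediateField.adjoin k {β})).toRingHom.injective z
  have h4 : (minpoly K z).natDegree ≤ Module.finrank K (IntermediateField.adjoin k {β}) :=
    minpoly.natDegree_le z
  have h5 := Module.finrank_mul_finrank K k (IntermediateField.adjoin k {β})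
  rw [h3]
  refine h4.trans ?_
  rw [← h5, h2, mul_comm]
  exact Nat.mul_le_mul_right _ h1

open Pool.Agent.V5helper62.TS Pool.Agent.Y730.QP in
/-- **Vojta's inequality on the images of rational functions.** Let `K` be a number field and
`ε > 0`. There is a subset `E` of `K` with the following properties.
(1) `E` has at most `C H ^ (2 - ν)` elements of height `H_K ≤ H` for all `H ≥ 1`, where `ν > 0`.
(2) Let `k` be any number field containing `K`, `S` a finite set of primes of `k`, `α_1, …, α_q`
distinct points of the projective line over `k`, `f = A / B` a rational function over `k` of degree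
`D ≥ 1` (`A`, `B` coprime, `D = max (deg A, deg B)`), and `n` the number of the points `β` of the
projective line over the algebraic closure with `f(β) ∈ {α_1, …, α_q}`. Then `n` is finite and at
least `(q - 2) D + 2`, and for some `C`,
`∑_{v ∉ S} ∑_l λ⁽¹⁾_v(α_l, f(t)) ≤ (n / D) h(f(t)) + C` for all `t ∈ K` with `f(t) ≠ α_1, …, α_q`.
If all these `β` have degree at most five over `K` (for instance if `D [k : K] ≤ 5`) then, for some
`C`, `(n / D - ε) h(f(t)) ≤ ∑_{v ∉ S} ∑_l λ⁽¹⁾_v(α_l, f(t)) + C` for all `t ∈ K` outside `E` with
`f(t) ≠ α_1, …, α_q`; in particular the same holds with the coefficient `q - 2 + 2 / D - ε`. -/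
theorem result (K : Type) [Field K] [NumberField K] (ε : ℝ) (hε : 0 < ε) :
    ∃ E : Set K,
      (∃ ν C : ℝ, 0 < ν ∧ ∀ H : ℝ, 1 ≤ H → (E ∩ {y | Height.mulHeight₁ y ≤ H}).Finite ∧
        ((E ∩ {y | Height.mulHeight₁ y ≤ H}).ncard : ℝ) ≤ C * H ^ (2 - ν)) ∧
      ∀ (k : Type) [Field k] [NumberField k] [Algebra K k]
        (S : Set (HeightOneSpectrum (𝓞 k))) (q : ℕ) (α : Fin q → Fin 2 → k), S.Finite →
        (∀ i, α i ≠ 0) → (∀ i j, i ≠ j → α i 0 * α j 1 - α i 1 * α j 0 ≠ 0) →
        ∀ (A B : k[X]) (D : ℕ), IsCoprime A B → D = max A.natDegree B.natDegree → 1 ≤ D →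
        (preimages D A B α).Finite ∧
        ((q : ℝ) - 2) * D + 2 ≤ (preimages D A B α).ncard ∧
        (∃ C : ℝ, ∀ t : K,
          (∀ l, value A B (algebraMap K k t) 0 * α l 1 - value A B (algebraMap K k t) 1 * α l 0 ≠
            0) →
          counting S α (value A B (algebraMap K k t)) ≤
            (preimages D A B α).ncard / D * height (value A B (algebraMap K k t)) + C) ∧
        ((∀ β, some β ∈ preimages D A B α → (minpoly K β).natDegree ≤ 5) ∨
            D * Module.finrank K k ≤ 5 →
          ∃ C : ℝ, ∀ t : K, t ∉ E →
            (∀ l, value A B (algebraMap K k t) 0 * α l 1 -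
              value A B (algebraMap K k t) 1 * α l 0 ≠ 0) →
            ((preimages D A B α).ncard / D - ε) * height (value A B (algebraMap K k t)) ≤
              counting S α (value A B (algebraMap K k t)) + C ∧
            (q - 2 + 2 / D - ε) * height (value A B (algebraMap K k t)) ≤
              counting S α (value A B (algebraMap K k t)) + C) := by
  classical
  obtain ⟨E, hE, hmain⟩ := lower K hε
  refine ⟨E, hE, ?_⟩
  intro k _ _ _ S q α hS hα0 hα A B D hco hDmax hD1
  have hA : A.natDegree ≤ D := by rw [hDmax]; exact le_max_left _ _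
  have hB : B.natDegree ≤ D := by rw [hDmax]; exact le_max_right _ _
  have hD : A.natDegree = D ∨ B.natDegree = D := by
    rcases le_total A.natDegree B.natDegree with h | h
    · right; rw [hDmax, max_eq_right h]
    · left; rw [hDmax, max_eq_left h]
  have hpre : preimages D A B α = Pool.Agent.V5helper62.TS.preimages D A B α := rfl
  have hval : ∀ t : k, value A B t = val A B t := fun t => rfl
  have hN : (0 : ℝ) < Module.finrank ℚ k := by exact_mod_cast (Module.finrank_pos (R := ℚ) (M := k))
  have hfd : FiniteDimensional K k := Module.Finite.of_restrictScalars_finite ℚ K k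
  have hd0 : (0 : ℝ) < Module.finrank K k := by exact_mod_cast Module.finrank_pos
  have hD0 : (0 : ℝ) < D := by exact_mod_cast hD1
  have hfib : ∀ (t : K) (l : Fin q), value A B (algebraMap K k t) 0 * α l 1 -
      value A B (algebraMap K k t) 1 * α l 0 = (fib A B (α l)).eval (algebraMap K k t) := by
    intro t l
    unfold value fib
    simp only [Matrix.cons_val_zero, Matrix.cons_val_one, eval_sub, eval_mul, eval_C]
    ring
  have hcard := le_card_preimages hA hB hD hD1 hco α hα0 hα
  rw [← hpre] at hcard
  have hcard' : ((q : ℝ) - 2) * D + 2 ≤ (preimages D A B α).ncard := by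
    have : (q : ℝ) * D + 2 ≤ (preimages D A B α).ncard + 2 * D := by exact_mod_cast hcard
    linarith
  -- heights
  have hP : ∀ i, ((![A, B] : Fin 2 → k[X]) i).natDegree ≤ D := by
    intro i
    fin_cases i
    · exact hA
    · exact hB
  have hPe : ∀ t : k, (fun i => ((![A, B] : Fin 2 → k[X]) i).eval t) = value A B t := by
    intro t
    funext i
    fin_cases i
    · rfl
    · rfl
  obtain ⟨C1, hC1⟩ := Pool.Agent.Y557.NF.curve_height_le (![A, B] : Fin 2 → k[X]) hP
  have hA0 : ∀ P : k[X], P.natDegree = D → P ≠ 0 := by
    rintro P hPD rfl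
    rw [natDegree_zero] at hPD
    omega
  obtain ⟨C2, hC2⟩ := Pool.Agent.Y557.NF.le_curve_height (![A, B] : Fin 2 → k[X]) (by
      obtain ⟨u, v, huv⟩ := hco
      refine ⟨![u, v], ?_⟩
      rw [Fin.sum_univ_two]
      exact huv) hP (by
      rcases hD with h | h
      · exact ⟨0, h, hA0 A h⟩
      · exact ⟨1, h, hA0 B h⟩)
  have hht : ∀ t : K, Height.logHeight₁ (algebraMap K k t) =
      (Module.finrank K k : ℝ) * Height.logHeight₁ t := fun t => Pool.Agent.Y557.OE.ht_ext t
  have hup : ∀ t : K, Height.logHeight (value A B (algebraMap K k t)) ≤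
      C1 + D * ((Module.finrank K k : ℝ) * Height.logHeight₁ t) := by
    intro t
    rw [← hht, ← hPe]
    exact hC1 _
  have hlo : ∀ t : K, C2 + D * ((Module.finrank K k : ℝ) * Height.logHeight₁ t) ≤
      Height.logHeight (value A B (algebraMap K k t)) := by
    intro t
    rw [← hht, ← hPe]
    exact hC2 _
  refine ⟨?_, hcard', ?_, ?_⟩
  · -- finiteness
    obtain ⟨c, hc⟩ := exists_value (K := k) (fun l => fib A B (α l))
      (fun l => fib_ne_zero hco hD1 hD (hα0 l))
    have hfin : (((∏ l, fib A B (α l)).rootSet (AlgebraicClosure k)).image some).Finite :=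
      (rootSet_finite _ _).image _
    refine (hfin.insert none).subset ?_
    rintro β (⟨rfl, -⟩ | ⟨z, rfl, l, hl⟩)
    · exact Set.mem_insert _ _
    · refine Set.mem_insert_of_mem _ ⟨z, ?_, rfl⟩
      rw [mem_rootSet, map_prod]
      refine ⟨Finset.prod_ne_zero_iff.2 fun l _ => fib_ne_zero hco hD1 hD (hα0 l), ?_⟩
      exact Finset.prod_eq_zero (Finset.mem_univ l) hl
  · -- the upper bound
    obtain ⟨C, hC⟩ := upper (K := K) S q D A B α hD1 hA hB hD hco hα0 hα
    refine ⟨(C - (preimages D A B α).ncard / D * C2) / Module.finrank ℚ k, fun t ht => ?_⟩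
    have h1 := hC t fun l => by rw [← hfib]; exact ht l
    rw [← hpre] at h1
    have h2 : cnt S α (value A B (algebraMap K k t)) ≤
        (Module.finrank K k : ℝ) * ((preimages D A B α).ncard * Height.logHeight₁ t) + C := h1
    rw [← counting_eq] at h2
    have h3 := hlo t
    have h4 : (Module.finrank K k : ℝ) * ((preimages D A B α).ncard * Height.logHeight₁ t) ≤
        (preimages D A B α).ncard / D * (Height.logHeight (value A B (algebraMap K k t)) - C2) := by
      have h5 : D * ((Module.finrank K k : ℝ) * Height.logHeight₁ t) ≤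
          Height.logHeight (value A B (algebraMap K k t)) - C2 := by linarith
      have h6 : (0 : ℝ) ≤ (preimages D A B α).ncard / D := by positivity
      refine le_trans (le_of_eq ?_) (mul_le_mul_of_nonneg_left h5 h6)
      field_simp
    refine le_of_mul_le_mul_left ?_ hN
    refine (h2.trans (add_le_add h4 le_rfl)).trans (le_of_eq ?_)
    unfold height
    field_simp
    ring
  · -- the lower bound
    intro hdeg
    have hdeg' : ∀ β : AlgebraicClosure k, (∃ l, aeval β (fib A B (α l)) = 0) →
        (minpoly K β).natDegree ≤ 5 := by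
      rintro β ⟨l, hl⟩
      rcases hdeg with hdeg | hdeg
      · exact hdeg β (Or.inr ⟨β, rfl, l, hl⟩)
      · refine (degree_le (K := K) (fib_ne_zero hco hD1 hD (hα0 l)) (D := D) ?_ hl).trans hdeg
        unfold fib
        refine (natDegree_sub_le _ _).trans (max_le ?_ ?_)
        · exact (natDegree_C_mul_le _ _).trans hA
        · exact (natDegree_C_mul_le _ _).trans hB
    obtain ⟨C, hC⟩ := hmain k S hS q D A B α hD1 hA hB hD hco hα0 hα hdeg'
    obtain ⟨n, hn⟩ : ∃ n : ℕ, n = (preimages D A B α).ncard := ⟨_, rfl⟩
    rw [← hpre, ← hn] at hC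
    rw [← hn] at hcard' ⊢
    have key : ∃ C' : ℝ, ∀ t : K, t ∉ E →
        (∀ l, value A B (algebraMap K k t) 0 * α l 1 -
          value A B (algebraMap K k t) 1 * α l 0 ≠ 0) →
        ((n : ℝ) / D - ε) * height (value A B (algebraMap K k t)) ≤
          counting S α (value A B (algebraMap K k t)) + C' := by
      refine ⟨(|(n : ℝ) / D - ε| * |C1| + |C|) / Module.finrank ℚ k, fun t htE ht => ?_⟩
      have ht' : ∀ l, (fib A B (α l)).eval (algebraMap K k t) ≠ 0 := fun l => by
        rw [← hfib]; exact ht l
      have h1 : (Module.finrank K k : ℝ) * (((n : ℝ) - ε) * Height.logHeight₁ t) ≤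
          cnt S α (value A B (algebraMap K k t)) + C := hC t htE ht'
      have hx0 : value A B (algebraMap K k t) ≠ 0 := by
        intro h
        obtain ⟨u, v, huv⟩ := hco
        have h1 : A.eval (algebraMap K k t) = 0 := congrFun h 0
        have h2 : B.eval (algebraMap K k t) = 0 := congrFun h 1
        have h3 := congrArg (eval (algebraMap K k t)) huv
        rw [eval_add, eval_mul, eval_mul, h1, h2, mul_zero, mul_zero, add_zero, eval_one] at h3
        exact zero_ne_one h3
      have h2 : 0 ≤ cnt S α (value A B (algebraMap K k t)) := by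
        refine cnt_nonneg S (fun l => ?_) hx0
        rw [hval, form_val]
        exact neg_ne_zero.2 (ht' l)
      refine le_of_mul_le_mul_left ?_ hN
      have e1 : (Module.finrank ℚ k : ℝ) * (((n : ℝ) / D - ε) *
          height (value A B (algebraMap K k t))) =
          ((n : ℝ) / D - ε) * Height.logHeight (value A B (algebraMap K k t)) := by
        unfold height
        field_simp
      have e2 : (Module.finrank ℚ k : ℝ) * (counting S α (value A B (algebraMap K k t)) +
          (|(n : ℝ) / D - ε| * |C1| + |C|) / Module.finrank ℚ k) =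
          cnt S α (value A B (algebraMap K k t)) + (|(n : ℝ) / D - ε| * |C1| + |C|) := by
        rw [mul_add, counting_eq]
        field_simp
      rw [e1, e2]
      have hh : 0 ≤ Height.logHeight₁ t := Height.zero_le_logHeight₁ t
      have hH : 0 ≤ Height.logHeight (value A B (algebraMap K k t)) := Height.logHeight_nonneg _
      have hp : 0 ≤ |(n : ℝ) / D - ε| * |C1| := by positivity
      have hq : 0 ≤ |C| := abs_nonneg _
      rcases le_total ((n : ℝ) / D - ε) 0 with hs | hs
      · have := mul_nonpos_of_nonpos_of_nonneg hs hH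
        linarith
      · have h3 := mul_le_mul_of_nonneg_left (hup t) hs
        have h4 : ((n : ℝ) / D - ε) * C1 ≤ |(n : ℝ) / D - ε| * |C1| := by
          rw [← abs_mul]
          exact le_abs_self _
        have h5 : ((n : ℝ) / D - ε) * (D * ((Module.finrank K k : ℝ) * Height.logHeight₁ t)) =
            (Module.finrank K k : ℝ) * (((n : ℝ) - ε * D) * Height.logHeight₁ t) := by
          field_simp
        have h6 : (Module.finrank K k : ℝ) * (((n : ℝ) - ε * D) * Height.logHeight₁ t) ≤
            (Module.finrank K k : ℝ) * (((n : ℝ) - ε) * Height.logHeight₁ t) := by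
          refine mul_le_mul_of_nonneg_left (mul_le_mul_of_nonneg_right ?_ hh) hd0.le
          have : (1 : ℝ) ≤ D := by exact_mod_cast hD1
          nlinarith
        have h7 := le_abs_self C
        rw [mul_add] at h3
        linarith
    obtain ⟨C', hC'⟩ := key
    refine ⟨C', fun t htE ht => ?_⟩
    have h1 := hC' t htE ht
    refine ⟨h1, le_trans ?_ h1⟩
    have hH : 0 ≤ height (value A B (algebraMap K k t)) :=
      div_nonneg (Height.logHeight_nonneg _) hN.le
    refine mul_le_mul_of_nonneg_right ?_ hH
    have h2 : (q : ℝ) - 2 + 2 / D ≤ n / D := by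
      rw [le_div_iff₀ hD0]
      have e : ((q : ℝ) - 2 + 2 / D) * D = (q - 2) * D + 2 := by
        field_simp
      rw [e]
      exact hcard'
    linarith

end Pool.Agent.Results.MP_4d5ce1_nt.RationalFunctionImages
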