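import Pool.Agent.V5helper62.SS.Final

/-!
# Vojta's conjecture for all finite subsets of the line: thin sets of points near zero suffice

`k` is a number field. The conjecture over `k`, for all finite sets `S` of primes, all finite subsets
`α_1, …, α_q` of the projective line over `k` and all `ε > 0`, is equivalent to the inequality

  `(1 - ε) h(x) ≤ ∑_v (λ⁽¹⁾_v(0, x) + λ⁽¹⁾_v(1, x) + λ⁽¹⁾_v(∞, x)) + C`

for the points `x` of a very thin set `T`. Here `T` consists of the values `x = f(φ(y ^ n))`, `y ∈ k`,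
where `φ(z) = 16 z (z - 1) ^ 2 / (z + 1) ^ 4`, `n ≥ 1` is arbitrary and `f` is any rational function
over `k` with `f(0) = 0` which is ramified only over `0`, `1`, `∞` and maps `0`, `1`, `∞` to these
points, such that, moreover, `|x|_v ≤ δ` for all archimedean places `v` of `k` and for all `v` in an
arbitrary finite set `P` of primes, and such that `h(x)` lies in one of the windows
`[Y_i, (1 + δ) Y_i]`, where `δ > 0` and `(Y_i)` is an arbitrary sequence of positive numbers tending
to infinity with bounded quotients. The set `T` has `O(H ^ (1 / (n D)))` elements of height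
`H_k ≤ H`, where `D` is the degree of `f`.
-/

set_option autoImplicit false

namespace Pool.Agent.Results.MP_4d5ce1_nt.ThinTestSets

open NumberField IsDedekindDomain Polynomial

/-- the absolute logarithmic height (the height of Mathlib is relative to `k`) -/
noncomputable def height {k : Type} [Field k] [NumberField k] (x : Fin 2 → k) : ℝ :=
  Height.logHeight x / (Module.finrank ℚ k : ℝ)

/-- the sum over the primes `v ∉ S` of `k` and over `l` of the truncated local heights
`λ⁽¹⁾_v(α_l, x) = min (λ_v(α_l, x), log N(v) / [k : ℚ])` -/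
noncomputable def counting {k : Type} [Field k] [NumberField k] (S : Set (HeightOneSpectrum (𝓞 k)))
    {q : ℕ} (α : Fin q → Fin 2 → k) (x : Fin 2 → k) : ℝ :=
  ∑ᶠ (v : HeightOneSpectrum (𝓞 k)) (_ : v ∉ S), ∑ l : Fin q,
    min
      (Real.log
          (max (FinitePlace.mk v (x 0)) (FinitePlace.mk v (x 1)) *
            max (FinitePlace.mk v (α l 0)) (FinitePlace.mk v (α l 1)) /
            FinitePlace.mk v (x 0 * α l 1 - x 1 * α l 0)) /
        (Module.finrank ℚ k : ℝ))
      (Real.log (Ideal.absNorm v.asIdeal : ℝ) / (Module.finrank ℚ k : ℝ))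

/-- Vojta's conjecture for all finite subsets of the projective line over `k` -/
def Conjecture (k : Type) [Field k] [NumberField k] : Prop :=
  ∀ (S : Set (HeightOneSpectrum (𝓞 k))) (q : ℕ) (α : Fin q → Fin 2 → k) (ε : ℝ), S.Finite →
    (∀ i, α i ≠ 0) → (∀ i j, i ≠ j → α i 0 * α j 1 - α i 1 * α j 0 ≠ 0) → 0 < ε →
    ∃ C : ℝ, ∀ x : Fin 2 → k, x ≠ 0 → (∀ l, x 0 * α l 1 - x 1 * α l 0 ≠ 0) →
      ((q : ℝ) - 2 - ε) * height x ≤ counting S α x + C

/-- the points `0`, `1`, `∞` -/
def cusps (k : Type) [Field k] : Fin 3 → Fin 2 → k := ![![0, 1], ![1, 1], ![1, 0]]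

/-- the function `φ` -/
def φ {k : Type} [Field k] (z : k) : k := 16 * z * (z - 1) ^ 2 / (z + 1) ^ 4

/-- the values `x = f(φ(y ^ n))`, `y ∈ k`, with `f = A / B`, such that `|x|_v ≤ δ` at all
archimedean places and at the places of `P`, and such that the height of `x` lies in a window
`[Y_i, (1 + δ) Y_i]` -/
def testSet {k : Type} [Field k] [NumberField k] (A B : k[X]) (n : ℕ)
    (P : Set (HeightOneSpectrum (𝓞 k))) (δ : ℝ) (Y : ℕ → ℝ) : Set k :=
  {x | (∃ y : k, y ^ n + 1 ≠ 0 ∧ B.eval (φ (y ^ n)) ≠ 0 ∧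
      x = A.eval (φ (y ^ n)) / B.eval (φ (y ^ n))) ∧
    (∀ v : InfinitePlace k, v x ≤ δ) ∧ (∀ v ∈ P, FinitePlace.mk v x ≤ δ) ∧
    ∃ i, Y i ≤ height ![x, 1] ∧ height ![x, 1] ≤ (1 + δ) * Y i}

open Pool.Agent.Y730.QP Pool.Agent.TH876.Loc in
theorem counting_eq {k : Type} [Field k] [NumberField k] (S : Set (HeightOneSpectrum (𝓞 k)))
    {q : ℕ} (α : Fin q → Fin 2 → k) (x : Fin 2 → k) :
    (Module.finrank ℚ k : ℝ) * counting S α x = cnt S α x := by
  classical
  have hd : (0 : ℝ) < Module.finrank ℚ k := by exact_mod_cast (Module.finrank_pos (R := ℚ) (M := k))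
  unfold counting cnt
  rw [mul_finsum]
  refine finsum_congr fun v => ?_
  rw [finsum_eq_if, finsum_eq_if]
  split_ifs with hv
  · rw [mul_zero]
  rw [Finset.mul_sum]
  refine Finset.sum_congr rfl fun l _ => ?_
  rw [mul_min_of_nonneg _ _ hd.le, mul_div_cancel₀ _ hd.ne', mul_div_cancel₀ _ hd.ne']
  have e : x 0 * α l 1 - x 1 * α l 0 = -Pool.Agent.TH876.KR.form (α l) x := by
    unfold Pool.Agent.TH876.KR.form
    ring
  have e2 : FinitePlace.mk v (x 0 * α l 1 - x 1 * α l 0) =
      FinitePlace.mk v (Pool.Agent.TH876.KR.form (α l) x) := by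
    rw [e]
    exact (FinitePlace.mk v).1.map_neg _
  rw [e2, mul_comm (max (FinitePlace.mk v (x 0)) (FinitePlace.mk v (x 1)))]
  rfl

theorem cusps_ne (k : Type) [Field k] : ∀ l, cusps k l ≠ 0 := by
  intro l h
  fin_cases l
  · exact one_ne_zero (α := k) (congrFun h 1)
  · exact one_ne_zero (α := k) (congrFun h 1)
  · exact one_ne_zero (α := k) (congrFun h 0)

theorem cusps_distinct (k : Type) [Field k] : ∀ i j, i ≠ j →
    cusps k i 0 * cusps k j 1 - cusps k i 1 * cusps k j 0 ≠ 0 := by
  intro i j hij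
  fin_cases i <;> fin_cases j <;> first | exact absurd rfl hij | (unfold cusps; simp)

theorem poly_cusps (k : Type) [Field k] [NumberField k] :
    Pool.Agent.V5helper62.SS.poly (cusps k) = Pool.Agent.V5helper62.SS.three := by
  unfold Pool.Agent.V5helper62.SS.poly Pool.Agent.V5helper62.SS.three cusps
  rw [Fin.prod_univ_three]
  simp

open Pool.Agent.V5helper62.SS Pool.Agent.Y730.QP in
/-- **Thin test sets near zero.** Let `k` be a number field, `f = A / B` a rational function over `k`
of degree `D ≥ 1` with `f(0) = 0` such that at most `D - 1` numbers `z ≠ 0, 1` in the algebraic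
closure of `k` are mapped to `0`, `1` or `∞` (for instance `f(z) = z`, `f(z) = z ^ D` or `f = φ`), let
`n ≥ 1`, let `P` be a finite set of primes of `k`, `δ > 0` and `(Y_i)` a sequence of positive numbers
which tends to infinity with `Y_{i + 1} ≤ r Y_i`. Let `T` be the set of all `x = f(φ(y ^ n))`, `y ∈ k`,
with `|x|_v ≤ δ` for all archimedean `v` and all `v ∈ P` and with `Y_i ≤ h(x) ≤ (1 + δ) Y_i` for
some `i`. Then Vojta's conjecture over `k`, for all finite `S`, all finite subsets of the projective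
line over `k` and all `ε`, is equivalent to the inequality for the points `0`, `1`, `∞`, empty `S`
and all `ε` at the points of `T`. The set `T` has at most `C H ^ (1 / (n D))` elements of height
`H_k ≤ H`, for all `H ≥ 1`. -/
theorem result (k : Type) [Field k] [NumberField k] (A B : k[X]) (D : ℕ) (hco : IsCoprime A B)
    (hDmax : D = max A.natDegree B.natDegree) (hD1 : 1 ≤ D) (h0 : A.eval 0 = 0)
    (hram : {z : AlgebraicClosure k | z ≠ 0 ∧ z ≠ 1 ∧
      aeval z (A * B * (A - B)) = 0}.ncard ≤ D - 1)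
    (n : ℕ) (hn : 1 ≤ n) (P : Set (HeightOneSpectrum (𝓞 k))) (hP : P.Finite)
    (δ : ℝ) (hδ : 0 < δ) (Y : ℕ → ℝ) (hY : ∀ i, 0 < Y i)
    (hYt : Filter.Tendsto Y Filter.atTop Filter.atTop) (r : ℝ) (hr : ∀ i, Y (i + 1) ≤ r * Y i) :
    (Conjecture k ↔ ∀ ε : ℝ, 0 < ε → ∃ C : ℝ, ∀ x ∈ testSet A B n P δ Y,
      (1 - ε) * height ![x, 1] ≤ counting ∅ (cusps k) ![x, 1] + C) ∧
    ∃ C : ℝ, ∀ H : ℝ, 1 ≤ H →
      (testSet A B n P δ Y ∩ {x | Height.mulHeight₁ x ≤ H}).Finite ∧
      ((testSet A B n P δ Y ∩ {x | Height.mulHeight₁ x ≤ H}).ncard : ℝ) ≤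
        C * H ^ (1 / ((n : ℝ) * D)) := by
  classical
  have hA : A.natDegree ≤ D := by rw [hDmax]; exact le_max_left _ _
  have hB : B.natDegree ≤ D := by rw [hDmax]; exact le_max_right _ _
  have hD : A.natDegree = D ∨ B.natDegree = D := by
    rcases le_total A.natDegree B.natDegree with h | h
    · right; rw [hDmax, max_eq_right h]
    · left; rw [hDmax, max_eq_left h]
  have hB0 : B.eval 0 ≠ 0 := by
    intro h
    obtain ⟨u, v, huv⟩ := hco
    have h3 := congrArg (eval 0) huv
    rw [eval_add, eval_mul, eval_mul, h0, h, mul_zero, mul_zero, add_zero, eval_one] at h3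
    exact zero_ne_one h3
  have hH : A * B * (A - B) ≠ 0 := by
    have e1 : A ≠ 0 := by
      rintro rfl
      have := natDegree_eq_zero_of_isUnit (isCoprime_zero_left.1 hco)
      rw [natDegree_zero] at hDmax
      omega
    have e2 : B ≠ 0 := by
      rintro rfl
      exact hB0 eval_zero
    have e3 : A - B ≠ 0 := by
      intro h
      rw [sub_eq_zero] at h
      rw [h] at h0
      exact hB0 h0
    exact mul_ne_zero (mul_ne_zero e1 e2) e3
  have hN : (0 : ℝ) < Module.finrank ℚ k := by exact_mod_cast (Module.finrank_pos (R := ℚ) (M := k))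
  obtain ⟨N, hNe⟩ : ∃ N : ℝ, N = Module.finrank ℚ k := ⟨_, rfl⟩
  rw [← hNe] at hN
  have hht : ∀ x : k, N * height ![x, 1] = Height.logHeight₁ x := by
    intro x
    unfold height
    rw [← hNe, Height.logHeight₁_eq_logHeight]
    field_simp
  have hφ : ∀ z : k, φ z = phi z := fun z => rfl
  refine ⟨⟨fun hC ε hε => ?_, fun hT => ?_⟩, ?_⟩
  · -- the easy direction
    obtain ⟨C, hC'⟩ := hC ∅ 3 (cusps k) ε Set.finite_empty (cusps_ne k) (cusps_distinct k) hε
    refine ⟨C, fun x hx => ?_⟩
    obtain ⟨-, -, -, i, hi, -⟩ := hx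
    have hpos : 0 < Height.logHeight₁ x := by
      rw [← hht]
      exact mul_pos hN (lt_of_lt_of_le (hY i) hi)
    have hx0 : x ≠ 0 := by
      rintro rfl
      rw [ht_zero] at hpos
      exact lt_irrefl _ hpos
    have hx1 : x ≠ 1 := by
      rintro rfl
      rw [ht_one] at hpos
      exact lt_irrefl _ hpos
    have h1 := hC' ![x, 1] (vec_ne x) (by
      intro l
      fin_cases l
      · show x * 1 - 1 * 0 ≠ 0
        simpa using hx0
      · show x * 1 - 1 * 1 ≠ 0
        rw [mul_one, mul_one, sub_ne_zero]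
        exact hx1
      · show x * 0 - 1 * 1 ≠ 0
        simp)
    have e : ((3 : ℕ) : ℝ) - 2 - ε = 1 - ε := by
      push_cast
      ring
    rw [e] at h1
    exact h1
  · -- the other direction
    have h3 : Ineq (three : k[X]) := by
      refine three_of_restricted hP.toFinset hco hD1 hA hB hD hH hram h0 hB0 hδ hn
        (fun i => N * Y i) (fun i => mul_pos hN (hY i)) (hYt.const_mul_atTop hN) (r := r)
        (fun i => ?_) (testSet A B n P δ Y) ?_ ?_
      · have := mul_le_mul_of_nonneg_left (hr i) hN.le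
        linarith
      · intro y hy1 hy2 hv1 hv2 hw
        refine ⟨⟨y, hy1, hy2, rfl⟩, hv1, fun v hv => hv2 v (hP.mem_toFinset.2 hv), ?_⟩
        obtain ⟨i, hi1, hi2⟩ := hw
        refine ⟨i, ?_, ?_⟩
        · rw [← hht] at hi1
          exact le_of_mul_le_mul_left hi1 hN
        · rw [← hht] at hi2
          refine le_of_mul_le_mul_left (hi2.trans (le_of_eq ?_)) hN
          ring
      · intro ε hε
        obtain ⟨C, hC⟩ := hT ε hε
        obtain ⟨C', -, hC'⟩ := cnt_le_NQ (cusps k) (cusps_distinct k) (cusps_ne k)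
        refine ⟨N * C + C', fun x hx hx0 hx1 => ?_⟩
        have h1 := mul_le_mul_of_nonneg_left (hC x hx) hN.le
        have h2 := hC' ∅ x (by
          intro l
          rw [form_one]
          fin_cases l
          · show (0 : k) - 1 * x ≠ 0
            simpa using hx0
          · show (1 : k) - 1 * x ≠ 0
            rw [one_mul, sub_ne_zero]
            exact Ne.symm hx1
          · show (1 : k) - 0 * x ≠ 0
            simp)
        rw [poly_cusps, ← counting_eq, ← hNe] at h2
        have e : N * ((1 - ε) * height ![x, 1]) = (1 - ε) * Height.logHeight₁ x := by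
          rw [← hht]
          ring
        rw [e, mul_add] at h1
        linarith
    intro S q α ε hS hα0 hα hε
    obtain ⟨C, hC⟩ := all_of_three h3 hS α hα0 hα hε
    refine ⟨C / N, fun x hx0 hx => ?_⟩
    have h1 := hC x hx0 (by
      intro l h
      apply hx l
      unfold Pool.Agent.TH876.KR.form at h
      linear_combination -h)
    rw [← counting_eq, ← hNe] at h1
    refine le_of_mul_le_mul_left ?_ hN
    have e1 : N * (((q : ℝ) - 2 - ε) * height x) = ((q : ℝ) - 2 - ε) * Height.logHeight x := by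
      unfold height
      rw [← hNe]
      field_simp
    have e2 : N * (counting S α x + C / N) = N * counting S α x + C := by
      field_simp
    rw [e1, e2]
    exact h1
  · obtain ⟨C, hC⟩ := count_fam hco hD1 hA hB hD hn
    refine ⟨C, fun H hH => ?_⟩
    obtain ⟨h1, h2⟩ := hC (Real.log H) (Real.log_nonneg hH)
    have hH0 : 0 < H := by linarith
    have hsub : testSet A B n P δ Y ∩ {x | Height.mulHeight₁ x ≤ H} ⊆
        {x : k | (∃ y : k, y ^ n + 1 ≠ 0 ∧ B.eval (phi (y ^ n)) ≠ 0 ∧ x = fam A B n y) ∧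
          Height.logHeight₁ x ≤ Real.log H} := by
      rintro x ⟨⟨⟨y, hy1, hy2, rfl⟩, -⟩, hx⟩
      refine ⟨⟨y, hy1, hy2, rfl⟩, ?_⟩
      rw [Height.logHeight₁_eq_log_mulHeight₁]
      exact Real.log_le_log (Height.mulHeight₁_pos _) hx
    refine ⟨h1.subset hsub, ?_⟩
    have h3 : ((testSet A B n P δ Y ∩ {x | Height.mulHeight₁ x ≤ H}).ncard : ℝ) ≤
        ({x : k | (∃ y : k, y ^ n + 1 ≠ 0 ∧ B.eval (phi (y ^ n)) ≠ 0 ∧ x = fam A B n y) ∧
          Height.logHeight₁ x ≤ Real.log H}.ncard : ℝ) := by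
      exact_mod_cast Set.ncard_le_ncard hsub h1
    refine h3.trans (h2.trans (le_of_eq ?_))
    rw [Real.rpow_def_of_pos hH0]
    congr 2
    rw [mul_comm (n : ℝ), mul_one_div]

end Pool.Agent.Results.MP_4d5ce1_nt.ThinTestSets
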