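import Mathlib
import Pool.Agent.V5helper59.SO.Fin

/-!
# The points of all heights which violate Vojta's inequality with the coefficient `q - κ`, ordered by
# their truncated counting function: the exact number up to the second order term

`K` is a number field of degree `d`, `α_1, ..., α_q` (`q ≥ 3`) are different points of `P¹(K)`, `T` is a
finite set of primes, `κ > 0` and `c` is real. Consider the points `x` of `P¹(K)`, different from the
`α_l`, of whatever height, with `exp N_T(x) ≤ X` and `N_T(x) ≤ (q - κ) h(x) + c`. Their number `V(X)` is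
finite, and for all `κ` below a positive number which depends only on `K` and `q`

  `log V(X) = d (2 - κ) / (q - κ) log X + (√(8 q κ d / (q - κ)) + o(1)) √(log X / log log X)`.

The same holds for all `κ < q / (5 q - 9)` (for `q = 3` this is `κ < 1/2`) for the points among them of
height `exp h(x) ≤ X ^ A`, for every `A ≥ 1 / (q - κ)`.
-/

set_option autoImplicit false

namespace Pool.Agent.Results.MP_4d5ce1_nt.ViolatorsOfAllHeights

open NumberField IsDedekindDomain Filter Topology

section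

variable {K : Type} [Field K] [NumberField K]

/-- the absolute logarithmic height of a point (`Height.logHeight` is relative to `K`) -/
noncomputable def height (x : Projectivization K (Fin 2 → K)) : ℝ :=
  Height.logHeight x.rep / (Module.finrank ℚ K : ℝ)

/-- the local height `λ_v(a, x)` for a prime `v`:
`log (max |x_i|_v max |a_i|_v / |x_0 a_1 - x_1 a_0|_v)`, with the absolute values of `K` normalised relative to `K`, divided
by `[K : ℚ]` -/
noncomputable def localHeight (v : HeightOneSpectrum (𝓞 K)) (a : Fin 2 → K)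
    (x : Projectivization K (Fin 2 → K)) : ℝ :=
  Real.log (max (FinitePlace.mk v (x.rep 0)) (FinitePlace.mk v (x.rep 1)) *
    max (FinitePlace.mk v (a 0)) (FinitePlace.mk v (a 1)) /
      FinitePlace.mk v (x.rep 0 * a 1 - x.rep 1 * a 0)) / (Module.finrank ℚ K : ℝ)

/-- the counting function `N_T(x)`, the sum over `l` and over the primes `v` outside `T` of the truncated local heights
`min (λ_v(α_l, x), log N(v) / [K : ℚ])` -/
noncomputable def counting (T : Set (HeightOneSpectrum (𝓞 K))) {q : ℕ} (α : Fin q → Fin 2 → K)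
    (x : Projectivization K (Fin 2 → K)) : ℝ :=
  ∑ l, ∑ᶠ (v : HeightOneSpectrum (𝓞 K)) (_ : v ∉ T),
    min (localHeight v (α l) x) (Real.log (Ideal.absNorm v.asIdeal : ℝ) / (Module.finrank ℚ K : ℝ))

/-- the points `x` different from the `α_l`, of whatever height, with `exp N_T(x) ≤ X` and
`N_T(x) ≤ (q - κ) h(x) + c` -/
def Violators (T : Set (HeightOneSpectrum (𝓞 K))) {q : ℕ} (α : Fin q → Fin 2 → K) (κ c X : ℝ) :
    Set (Projectivization K (Fin 2 → K)) :=
  {x | (∀ l, x.rep 0 * α l 1 - x.rep 1 * α l 0 ≠ 0) ∧ Real.exp (counting T α x) ≤ X ∧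
    counting T α x ≤ ((q : ℝ) - κ) * height x + c}

theorem eq_all (T : Set (HeightOneSpectrum (𝓞 K))) {q : ℕ} (α : Fin q → Fin 2 → K) (κ c : ℝ)
    {X : ℝ} (hX : 0 < X) : Violators T α κ c X =
      Pool.Agent.V5helper59.SO.WQ T α κ c (fun _ _ => True) (Real.log X) := by
  ext x
  constructor
  · rintro ⟨h1, h2, h3⟩
    exact ⟨h1, (Real.le_log_iff_exp_le hX).2 h2, h3, trivial⟩
  · rintro ⟨h1, h2, h3, -⟩
    exact ⟨h1, (Real.le_log_iff_exp_le hX).1 h2, h3⟩

theorem eq_mid (T : Set (HeightOneSpectrum (𝓞 K))) {q : ℕ} (α : Fin q → Fin 2 → K) (κ c A : ℝ)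
    {X : ℝ} (hX : 0 < X) : {x ∈ Violators T α κ c X | Real.exp (height x) ≤ X ^ A} =
      Pool.Agent.V5helper59.SO.WQ T α κ c (fun Y h => h ≤ A * Y) (Real.log X) := by
  have hd : (0 : ℝ) < Module.finrank ℚ K := by
    exact_mod_cast (Module.finrank_pos (R := ℚ) (M := K))
  have key : ∀ x : Projectivization K (Fin 2 → K), Real.exp (height x) ≤ X ^ A ↔
      Height.logHeight x.rep ≤ A * (Module.finrank ℚ K * Real.log X) := by
    intro x
    rw [Real.rpow_def_of_pos hX, Real.exp_le_exp]
    unfold height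
    rw [div_le_iff₀ hd]
    have e : Real.log X * A * (Module.finrank ℚ K : ℝ) =
        A * (Module.finrank ℚ K * Real.log X) := by ring
    rw [e]
  ext x
  constructor
  · rintro ⟨⟨h1, h2, h3⟩, h4⟩
    exact ⟨h1, (Real.le_log_iff_exp_le hX).2 h2, h3, (key x).1 h4⟩
  · rintro ⟨h1, h2, h3, h4⟩
    exact ⟨⟨h1, (Real.le_log_iff_exp_le hX).1 h2, h3⟩, (key x).2 h4⟩

end

/-- **Theorem.** Let `K` be a number field of degree `d` and `q ≥ 3`. For a finite set `T` of primes, different points
`α_1, ..., α_q` of `P¹(K)` and real numbers `κ`, `c` let `V(X)` be the number of all points `x` of `P¹(K)`, different from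
the `α_l`, of whatever height, with `exp N_T(x) ≤ X` and `N_T(x) ≤ (q - κ) h(x) + c`.
(0) `V(X)` is finite for all `X`.
(1) There is `κ₀ > 0`, which depends only on `K` and `q`, such that for all `T`, `α`, `c` and `0 < κ < κ₀`
`(log V(X) - d (2 - κ) / (q - κ) log X) / √(log X / log log X)` tends to `√(8 q κ d / (q - κ))`.
(2) For all `T`, `α`, `c`, `0 < κ < q / (5 q - 9)` and `A ≥ 1 / (q - κ)` the same is true for the number of those of these
points whose height satisfies `exp h(x) ≤ X ^ A`. -/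
theorem result : ∀ (K : Type) [Field K] [NumberField K] (q : ℕ), 3 ≤ q →
    (∀ (T : Set (HeightOneSpectrum (𝓞 K))) (α : Fin q → Fin 2 → K), T.Finite → (∀ l, α l ≠ 0) →
      (∀ l l', l ≠ l' → α l 0 * α l' 1 - α l 1 * α l' 0 ≠ 0) →
      ∀ κ c X : ℝ, (Violators T α κ c X).Finite) ∧
    (∃ κ₀ : ℝ, 0 < κ₀ ∧
      ∀ (T : Set (HeightOneSpectrum (𝓞 K))) (α : Fin q → Fin 2 → K), T.Finite → (∀ l, α l ≠ 0) →
      (∀ l l', l ≠ l' → α l 0 * α l' 1 - α l 1 * α l' 0 ≠ 0) → ∀ κ c : ℝ, 0 < κ → κ < κ₀ →
      Tendsto (fun X : ℝ => (Real.log ((Violators T α κ c X).ncard : ℝ) -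
          Module.finrank ℚ K * (2 - κ) / (q - κ) * Real.log X) /
          √(Real.log X / Real.log (Real.log X))) atTop
        (𝓝 √(8 * q * κ * Module.finrank ℚ K / (q - κ)))) ∧
    (∀ (T : Set (HeightOneSpectrum (𝓞 K))) (α : Fin q → Fin 2 → K), T.Finite → (∀ l, α l ≠ 0) →
      (∀ l l', l ≠ l' → α l 0 * α l' 1 - α l 1 * α l' 0 ≠ 0) →
      ∀ κ c A : ℝ, 0 < κ → κ < q / (5 * q - 9) → 1 / (q - κ) ≤ A →
      Tendsto (fun X : ℝ =>
          (Real.log ({x ∈ Violators T α κ c X | Real.exp (height x) ≤ X ^ A}.ncard : ℝ) -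
          Module.finrank ℚ K * (2 - κ) / (q - κ) * Real.log X) /
          √(Real.log X / Real.log (Real.log X))) atTop
        (𝓝 √(8 * q * κ * Module.finrank ℚ K / (q - κ)))) := by
  intro K _ _ q hq
  have hqR : (3 : ℝ) ≤ q := by exact_mod_cast hq
  have hd : (0 : ℝ) < Module.finrank ℚ K := by
    exact_mod_cast (Module.finrank_pos (R := ℚ) (M := K))
  have hconst : ∀ κ : ℝ, 0 < κ → κ < q →
      √(8 * q * κ / (q - κ)) * √(Module.finrank ℚ K : ℝ) =
        √(8 * q * κ * Module.finrank ℚ K / (q - κ)) := by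
    intro κ h0 h1
    have h2 : 0 < (q : ℝ) - κ := by linarith
    rw [← Real.sqrt_mul (by positivity)]
    congr 1
    ring
  refine ⟨?_, ?_, ?_⟩
  · intro T α hT hα0 hα κ c X
    rcases le_or_gt X 0 with hX | hX
    · refine Set.Finite.subset Set.finite_empty ?_
      rintro x ⟨-, h, -⟩
      exact absurd (Real.exp_pos (counting T α x)) (not_lt.2 (h.trans hX))
    · rw [eq_all T α κ c hX]
      exact Pool.Agent.V5helper59.SO.wq_finite hq hT hα0 hα κ c _ _
  · obtain ⟨κ₀, hκ₀, h⟩ := Pool.Agent.V5helper59.SO.all_heights K hq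
    refine ⟨min κ₀ 1, lt_min hκ₀ one_pos, fun T α hT hα0 hα κ c h0 h1 => ?_⟩
    have h2 := (h T α hT hα0 hα κ c h0 (lt_of_lt_of_le h1 (min_le_left _ _))).comp
      Real.tendsto_log_atTop
    have h3 : κ < 1 := lt_of_lt_of_le h1 (min_le_right _ _)
    rw [hconst κ h0 (by linarith)] at h2
    refine h2.congr' ?_
    filter_upwards [eventually_gt_atTop (0 : ℝ)] with X hX
    simp only [Function.comp_apply, Pool.Agent.N906.NT.Gs]
    rw [eq_all T α κ c hX, Real.sqrt_eq_rpow]
    congr 2
    ring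
  · intro T α hT hα0 hα κ c A h0 h1 hA
    have h9 : (0 : ℝ) < 5 * q - 9 := by linarith
    have h1' : (5 * (q : ℝ) - 9) * κ < q := by
      rw [lt_div_iff₀ h9] at h1
      linarith
    have h2 := (Pool.Agent.V5helper59.SO.mid_heights K hq T α hT hα0 hα κ c A h0 h1' hA).comp
      Real.tendsto_log_atTop
    have h3 : κ < q := by
      by_contra hcon
      rw [not_lt] at hcon
      nlinarith
    rw [hconst κ h0 h3] at h2
    refine h2.congr' ?_
    filter_upwards [eventually_gt_atTop (0 : ℝ)] with X hX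
    simp only [Function.comp_apply, Pool.Agent.N906.NT.Gs]
    rw [eq_mid T α κ c A hX, Real.sqrt_eq_rpow]
    congr 2
    ring

end Pool.Agent.Results.MP_4d5ce1_nt.ViolatorsOfAllHeights
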